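import Pool.Agent.Results.MP_bbe012_lc.PolynomialsWithFewAdditions
import Pool.Agent.H340R2.LW

/-!
# A decidable class of sentences about the real exponential field

We consider sentences of the language of the ordered exponential field of the form

  `∃ x_1, …, x_m (exp x_1 = n_1 ∧ … ∧ exp x_m = n_m ∧ t(x) = t'(x))`,

where the `n_i` are positive integers and the exponential terms `t`, `t'` are given by a straight-line program with
at most `L` additions and subtractions and arbitrarily many multiplications, in which `exp` is applied to sums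
`k_0 + k_1 x_1 + … + k_m x_m` with integral coefficients: each gate is the sum of two products of an integer, of such
an exponential, of powers of the variables and of powers of the earlier gates.  The exponents and the integers are
arbitrary, so that neither the lengths of the terms nor their degrees are bounded.  (The `x_i` are determined by the
first `m` equations, so `∃` may be replaced by `∀ x (… → …)`, and Boolean combinations of equations are decided as
well.)

**Theorem.**  For all `m`, `L` there are a primitive recursive procedure `Dec` and a number `c` such that for all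
`x ≥ 16`, for all but at most `c (log log x) ^ c / log x · x ^ m` of the `m`-tuples `n` of integers in `[1, x]`, for
ALL such programs `P` and all gates `i`, `j` of `P`: `Dec (n, P, i, j)` is true if and only if the sentence is true in
the real exponential field, for the terms `i` and `j` of `P`.

**The proof.**  At `x_i = log n_i` the exponential `exp (k_0 + ∑ k_i x_i)` is `e ^ k_0 ∏ n_i ^ k_i`, so the gates are
Laurent polynomials in `e` and polynomials in the `log n_i`; after multiplication with powers of `e ∏ n_i` (`den`) they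
are computed by a program with `L` additions, natural exponents and integral coefficients (`sub`).  `e` is
transcendental; so the theorem on polynomials with few additions (`MP_bbe012_lc.PolynomialsWithFewAdditions`, `g = 1`,
`t_1 = e`, whose transcendence part is the starting result `MP_60829e_nt.FewAdditions`) can be applied.
-/

set_option autoImplicit false

open Pool.Agent.Run7.h788.Slp (map_gate gate Prog primrec_prod primrec_pow)

namespace Pool.Agent.Results.MP_da121c_lc.ExponentialTermsAtLogarithms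

/-- An exponential straight-line program in `m` variables with `L` gates: for every gate `l` and `b = 0, 1` natural
numbers `σ`, `c` (for the integer `(-1) ^ σ c`), the integers `k_0` and `k_1, …, k_m`, each given as the difference of
two natural numbers (for `exp (k_0 + ∑ k_i x_i)`), the exponents of the variables, and the exponents of the gates
(only those of the gates before `l` are used). -/
abbrev ExpProg (m L : ℕ) : Type :=
  Fin L → Fin 2 → ((ℕ × ℕ) × ((ℕ × ℕ) × (Fin m → ℕ × ℕ))) × ((Fin m → ℕ) × (Fin L → ℕ))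

/-- The integer `k.1 - k.2`, as a real number. -/
def int (k : ℕ × ℕ) : ℝ := (k.1 : ℝ) - k.2

/-- The value at `x` of the gate `l`: the sum of the two products `b = 0, 1` of the integer `(-1) ^ σ c`, of
`exp (k_0 + ∑ k_i x_i)`, of the powers of the `x_i` and of the powers of the values of the gates `l' < l`. -/
noncomputable def value {m L : ℕ} (P : ExpProg m L) (x : Fin m → ℝ) (l : ℕ) : ℝ :=
  if hl : l < L then
    ∑ b, ((-1) ^ (P ⟨l, hl⟩ b).1.1.1 * ((P ⟨l, hl⟩ b).1.1.2 : ℝ)) *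
      Real.exp (int (P ⟨l, hl⟩ b).1.2.1 + ∑ i, int ((P ⟨l, hl⟩ b).1.2.2 i) * x i) *
      (∏ i, x i ^ (P ⟨l, hl⟩ b).2.1 i) *
      ∏ l' : Fin l, value P x l' ^ (P ⟨l, hl⟩ b).2.2 ⟨l', l'.2.trans hl⟩
  else 0
termination_by l
decreasing_by exact l'.2

/-- The sentence `∃ x (exp x_1 = n_1 ∧ … ∧ exp x_m = n_m ∧ t_i(x) = t_j(x))` is true in the real exponential field,
where `t_i`, `t_j` are the terms of the gates `i`, `j` of `P`. -/
def IsTrue {m L : ℕ} (n : Fin m → ℕ) (P : ExpProg m L) (i j : Fin L) : Prop :=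
  ∃ x : Fin m → ℝ, (∀ a, Real.exp (x a) = n a) ∧ value P x i = value P x j

section

variable {m L : ℕ}

/-- the exponent of the denominator of the gate `l` -/
def den (P : ExpProg m L) (l : ℕ) : ℕ :=
  if hl : l < L then
    ∑ b, ((P ⟨l, hl⟩ b).1.2.1.2 + (∑ a, ((P ⟨l, hl⟩ b).1.2.2 a).2) +
      ∑ l' : Fin l, (P ⟨l, hl⟩ b).2.2 ⟨l', l'.2.trans hl⟩ * den P l')
  else 0
termination_by l
decreasing_by exact l'.2

/-- the exponent which is left -/
def rest (P : ExpProg m L) (l : Fin L) (b : Fin 2) : ℕ :=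
  den P l - ∑ l' : Fin (l : ℕ), (P l b).2.2 ⟨l', l'.2.trans l.2⟩ * den P l'

theorem den_eq (P : ExpProg m L) (l : Fin L) (b : Fin 2) :
    (∑ l' : Fin (l : ℕ), (P l b).2.2 ⟨l', l'.2.trans l.2⟩ * den P l') + rest P l b = den P l ∧
    (P l b).1.2.1.2 ≤ rest P l b ∧ ∀ a, ((P l b).1.2.2 a).2 ≤ rest P l b := by
  have h1 : (P l b).1.2.1.2 + (∑ a, ((P l b).1.2.2 a).2) +
      ∑ l' : Fin (l : ℕ), (P l b).2.2 ⟨l', l'.2.trans l.2⟩ * den P l' ≤ den P l := by
    conv_rhs => rw [den, dif_pos l.2]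
    exact Finset.single_le_sum (f := fun b : Fin 2 => (P l b).1.2.1.2 +
      (∑ a, ((P l b).1.2.2 a).2) +
      ∑ l' : Fin (l : ℕ), (P l b).2.2 ⟨l', l'.2.trans l.2⟩ * den P l')
      (fun _ _ => Nat.zero_le _) (Finset.mem_univ b)
  have h2 : ∀ a, ((P l b).1.2.2 a).2 ≤ ∑ a, ((P l b).1.2.2 a).2 := fun a =>
    Finset.single_le_sum (f := fun a => ((P l b).1.2.2 a).2) (fun _ _ => Nat.zero_le _)
      (Finset.mem_univ a)
  unfold rest
  refine ⟨by omega, by omega, fun a => ?_⟩
  have := h2 a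
  omega

/-- the program without exponentials and denominators; the last two gates are the gates `i` and `j`, up to a common
factor -/
def sub (n : Fin m → ℕ) (P : ExpProg m L) (i j : Fin L) : Prog 1 m (L + 2) :=
  fun l b => if hl : (l : ℕ) < L then
    ((((P ⟨l, hl⟩ b).1.1.1, (P ⟨l, hl⟩ b).1.1.2 *
        ∏ a, n a ^ (((P ⟨l, hl⟩ b).1.2.2 a).1 + (rest P ⟨l, hl⟩ b - ((P ⟨l, hl⟩ b).1.2.2 a).2))),
      fun _ => (P ⟨l, hl⟩ b).1.2.1.1 + (rest P ⟨l, hl⟩ b - (P ⟨l, hl⟩ b).1.2.1.2)),
      ((P ⟨l, hl⟩ b).2.1, fun l' => if hl' : (l' : ℕ) < L then (P ⟨l, hl⟩ b).2.2 ⟨l', hl'⟩ else 0))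
  else
    (((0, (1 - (b : ℕ)) * ∏ a, n a ^ den P (if (l : ℕ) = L then (j : ℕ) else (i : ℕ))),
      fun _ => den P (if (l : ℕ) = L then (j : ℕ) else (i : ℕ))),
      (fun _ => 0, fun l' => if (l' : ℕ) = (if (l : ℕ) = L then (i : ℕ) else (j : ℕ)) then 1 else 0))

theorem gate_lt (n : Fin m → ℕ) (P : ExpProg m L) (i j : Fin L) (x : Fin m → ℝ)
    (hx : ∀ a, Real.exp (x a) = n a) (l : ℕ) (hl : l < L) :
    gate (sub n P i j) (fun _ => Real.exp 1) x l =
      (Real.exp 1 * ∏ a, (n a : ℝ)) ^ den P l * value P x l := by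
  induction l using Nat.strong_induction_on with
  | _ l ih =>
    rw [value, gate, dif_pos hl, dif_pos (show l < L + 2 by omega), Finset.mul_sum]
    refine Finset.sum_congr rfl fun b _ => ?_
    obtain ⟨h1, h2, h3⟩ := den_eq P ⟨l, hl⟩ b
    have hsub : sub n P i j ⟨l, show l < L + 2 by omega⟩ b =
        ((((P ⟨l, hl⟩ b).1.1.1, (P ⟨l, hl⟩ b).1.1.2 *
        ∏ a, n a ^ (((P ⟨l, hl⟩ b).1.2.2 a).1 + (rest P ⟨l, hl⟩ b - ((P ⟨l, hl⟩ b).1.2.2 a).2))),
      fun _ : Fin 1 => (P ⟨l, hl⟩ b).1.2.1.1 + (rest P ⟨l, hl⟩ b - (P ⟨l, hl⟩ b).1.2.1.2)),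
      ((P ⟨l, hl⟩ b).2.1, fun l' : Fin (L + 2) => if hl' : (l' : ℕ) < L then
        (P ⟨l, hl⟩ b).2.2 ⟨l', hl'⟩ else 0)) := by
      unfold sub
      rw [dif_pos hl]
    rw [hsub]
    have hprod : ∏ l' : Fin l, gate (sub n P i j) (fun _ => Real.exp 1) x l' ^
          (if hl' : (l' : ℕ) < L then (P ⟨l, hl⟩ b).2.2 ⟨l', hl'⟩ else 0) =
        (Real.exp 1 * ∏ a, (n a : ℝ)) ^
          (∑ l' : Fin l, (P ⟨l, hl⟩ b).2.2 ⟨l', l'.2.trans hl⟩ * den P l') *
        ∏ l' : Fin l, value P x l' ^ (P ⟨l, hl⟩ b).2.2 ⟨l', l'.2.trans hl⟩ := by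
      rw [← Finset.prod_pow_eq_pow_sum, ← Finset.prod_mul_distrib]
      refine Finset.prod_congr rfl fun l' _ => ?_
      rw [dif_pos (l'.2.trans hl), ih l' l'.2 (l'.2.trans hl), mul_pow, ← pow_mul]
      congr 2
      ring
    have hexp : (∏ a, (n a : ℝ) ^ (((P ⟨l, hl⟩ b).1.2.2 a).1 +
          (rest P ⟨l, hl⟩ b - ((P ⟨l, hl⟩ b).1.2.2 a).2))) *
        Real.exp 1 ^ ((P ⟨l, hl⟩ b).1.2.1.1 + (rest P ⟨l, hl⟩ b - (P ⟨l, hl⟩ b).1.2.1.2)) =
        (Real.exp 1 * ∏ a, (n a : ℝ)) ^ rest P ⟨l, hl⟩ b *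
        Real.exp (int (P ⟨l, hl⟩ b).1.2.1 + ∑ i, int ((P ⟨l, hl⟩ b).1.2.2 i) * x i) := by
      rw [Real.exp_add, Real.exp_sum, mul_pow, ← Finset.prod_pow]
      have e1 : Real.exp 1 ^ ((P ⟨l, hl⟩ b).1.2.1.1 +
          (rest P ⟨l, hl⟩ b - (P ⟨l, hl⟩ b).1.2.1.2)) =
          Real.exp 1 ^ rest P ⟨l, hl⟩ b * Real.exp (int (P ⟨l, hl⟩ b).1.2.1) := by
        rw [← Real.exp_nat_mul, ← Real.exp_nat_mul, ← Real.exp_add]
        congr 1
        unfold int
        push_cast [Nat.cast_sub h2]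
        ring
      have e2 : ∀ a, (n a : ℝ) ^ (((P ⟨l, hl⟩ b).1.2.2 a).1 +
          (rest P ⟨l, hl⟩ b - ((P ⟨l, hl⟩ b).1.2.2 a).2)) =
          (n a : ℝ) ^ rest P ⟨l, hl⟩ b * Real.exp (int ((P ⟨l, hl⟩ b).1.2.2 a) * x a) := by
        intro a
        rw [← hx a, ← Real.exp_nat_mul, ← Real.exp_nat_mul, ← Real.exp_add]
        congr 1
        unfold int
        push_cast [Nat.cast_sub (h3 a)]
        ring
      rw [e1, Finset.prod_congr rfl fun a _ => e2 a, Finset.prod_mul_distrib]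
      ring
    have h1' : (∑ l' : Fin l, (P ⟨l, hl⟩ b).2.2 ⟨l', l'.2.trans hl⟩ * den P l') +
        rest P ⟨l, hl⟩ b = den P l := h1
    simp only [Finset.univ_unique, Finset.prod_singleton]
    rw [hprod, ← h1', pow_add]
    push_cast
    generalize hA : (Real.exp 1 * ∏ a, (n a : ℝ)) = W at *
    generalize (∏ l' : Fin l, value P x l' ^ (P ⟨l, hl⟩ b).2.2 ⟨l', l'.2.trans hl⟩) = V at *
    generalize (∏ i, x i ^ (P ⟨l, hl⟩ b).2.1 i) = X at *
    calc _ = (-1) ^ (P ⟨l, hl⟩ b).1.1.1 * ((P ⟨l, hl⟩ b).1.1.2 : ℝ) *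
          ((∏ a, (n a : ℝ) ^ (((P ⟨l, hl⟩ b).1.2.2 a).1 +
            (rest P ⟨l, hl⟩ b - ((P ⟨l, hl⟩ b).1.2.2 a).2))) *
          Real.exp 1 ^ ((P ⟨l, hl⟩ b).1.2.1.1 + (rest P ⟨l, hl⟩ b - (P ⟨l, hl⟩ b).1.2.1.2))) *
          X * (W ^ (∑ l' : Fin l, (P ⟨l, hl⟩ b).2.2 ⟨l', l'.2.trans hl⟩ * den P l') * V) := by
            ring
      _ = _ := by
            rw [hexp]
            ring

theorem gate_top (n : Fin m → ℕ) (P : ExpProg m L) (i j : Fin L) (x : Fin m → ℝ) (l : ℕ)
    (hl : L ≤ l) (hl2 : l < L + 2) :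
    gate (sub n P i j) (fun _ => Real.exp 1) x l =
      (Real.exp 1 * ∏ a, (n a : ℝ)) ^ den P (if l = L then (j : ℕ) else (i : ℕ)) *
        gate (sub n P i j) (fun _ => Real.exp 1) x (if l = L then (i : ℕ) else (j : ℕ)) := by
  classical
  have hk : (if l = L then (i : ℕ) else (j : ℕ)) < l := by
    split_ifs
    · exact lt_of_lt_of_le i.2 hl
    · exact lt_of_lt_of_le j.2 hl
  generalize hA : (if l = L then (j : ℕ) else (i : ℕ)) = A
  generalize hB : (if l = L then (i : ℕ) else (j : ℕ)) = B at hk ⊢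
  rw [gate, dif_pos hl2, Fin.sum_univ_two]
  have hsub : ∀ b : Fin 2, sub n P i j ⟨l, hl2⟩ b =
      (((0, (1 - (b : ℕ)) * ∏ a, n a ^ den P A), fun _ : Fin 1 => den P A),
        (fun _ : Fin m => 0, fun l' : Fin (L + 2) => if (l' : ℕ) = B then 1 else 0)) := by
    intro b
    unfold sub
    rw [dif_neg (show ¬ l < L by omega)]
    simp only [hA, hB]
  have hp : ∏ l' : Fin l, gate (sub n P i j) (fun _ => Real.exp 1) x l' ^
      (if (l' : ℕ) = B then 1 else 0) = gate (sub n P i j) (fun _ => Real.exp 1) x B := by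
    rw [Finset.prod_eq_single (⟨B, hk⟩ : Fin l)]
    · rw [if_pos rfl, pow_one]
    · intro l' _ hne
      rw [if_neg (fun h => hne (Fin.ext h)), pow_zero]
    · intro h
      exact absurd (Finset.mem_univ _) h
  rw [hsub, hsub]
  simp only [Finset.univ_unique, Finset.prod_singleton, pow_zero, Finset.prod_const_one, mul_one,
    Fin.val_zero, Fin.val_one, Nat.sub_zero, Nat.sub_self, zero_mul, Nat.cast_zero, mul_zero,
    add_zero, one_mul]
  rw [hp, mul_pow, ← Finset.prod_pow]
  push_cast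
  ring

theorem primrec_den (l : ℕ) : Primrec fun P : ExpProg m L => den P l := by
  induction l using Nat.strong_induction_on with
  | _ l ih =>
    by_cases hl : l < L
    · have e : (fun P : ExpProg m L => den P l) = fun P =>
          ∑ b : Fin 2, ((P ⟨l, hl⟩ b).1.2.1.2 + (∑ a, ((P ⟨l, hl⟩ b).1.2.2 a).2) +
            ∑ l' : Fin l, (P ⟨l, hl⟩ b).2.2 ⟨l', l'.2.trans hl⟩ * den P l') := by
        funext P
        rw [den, dif_pos hl]
      rw [e]
      refine Run7.h893.DP.primrec_sum fun b => ?_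
      have hc : Primrec fun P : ExpProg m L => P ⟨l, hl⟩ b :=
        Primrec.fin_app.comp (Primrec.fin_app.comp Primrec.id (Primrec.const (⟨l, hl⟩ : Fin L)))
          (Primrec.const b)
      refine Primrec.nat_add.comp (Primrec.nat_add.comp
        (Primrec.snd.comp (Primrec.fst.comp (Primrec.snd.comp (Primrec.fst.comp hc))))
        (Run7.h893.DP.primrec_sum fun a => ?_)) (Run7.h893.DP.primrec_sum fun l' => ?_)
      · exact Primrec.snd.comp (Primrec.fin_app.comp
          (Primrec.snd.comp (Primrec.snd.comp (Primrec.fst.comp hc))) (Primrec.const a))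
      · exact Primrec.nat_mul.comp (Primrec.fin_app.comp (Primrec.snd.comp (Primrec.snd.comp hc))
          (Primrec.const (⟨l', l'.2.trans hl⟩ : Fin L))) (ih l' l'.2)
    · have e : (fun P : ExpProg m L => den P l) = fun _ => 0 := by
        funext P
        rw [den, dif_neg hl]
      rw [e]
      exact Primrec.const 0

theorem primrec_rest (l : Fin L) (b : Fin 2) : Primrec fun P : ExpProg m L => rest P l b := by
  have hc : Primrec fun P : ExpProg m L => P l b :=
    Primrec.fin_app.comp (Primrec.fin_app.comp Primrec.id (Primrec.const l)) (Primrec.const b)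
  unfold rest
  refine Primrec.nat_sub.comp (primrec_den l) (Run7.h893.DP.primrec_sum fun l' => ?_)
  exact Primrec.nat_mul.comp (Primrec.fin_app.comp (Primrec.snd.comp (Primrec.snd.comp hc))
    (Primrec.const (⟨l', l'.2.trans l.2⟩ : Fin L))) (primrec_den l')

/-- functions into a finite power -/
theorem primrec_pi {α σ : Type*} [Primcodable α] [Primcodable σ] {M : ℕ} {f : α → Fin M → σ}
    (hf : ∀ k, Primrec fun q => f q k) : Primrec f := by
  refine Primrec.fin_curry.2 ?_
  exact Primrec₂.swap (Primrec.fin_curry₁.2 hf)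

theorem primrec_sub : Primrec fun q : ((Fin m → ℕ) × ExpProg m L) × (Fin L × Fin L) =>
    sub q.1.1 q.1.2 q.2.1 q.2.2 := by
  refine primrec_pi fun l => primrec_pi fun b => ?_
  by_cases hl : (l : ℕ) < L
  · have e : (fun q : ((Fin m → ℕ) × ExpProg m L) × (Fin L × Fin L) =>
        sub q.1.1 q.1.2 q.2.1 q.2.2 l b) = fun q =>
        ((((q.1.2 ⟨l, hl⟩ b).1.1.1, (q.1.2 ⟨l, hl⟩ b).1.1.2 *
          ∏ a, q.1.1 a ^ (((q.1.2 ⟨l, hl⟩ b).1.2.2 a).1 +
            (rest q.1.2 ⟨l, hl⟩ b - ((q.1.2 ⟨l, hl⟩ b).1.2.2 a).2))),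
          fun _ : Fin 1 => (q.1.2 ⟨l, hl⟩ b).1.2.1.1 +
            (rest q.1.2 ⟨l, hl⟩ b - (q.1.2 ⟨l, hl⟩ b).1.2.1.2)),
          ((q.1.2 ⟨l, hl⟩ b).2.1, fun l' : Fin (L + 2) => if hl' : (l' : ℕ) < L then
            (q.1.2 ⟨l, hl⟩ b).2.2 ⟨l', hl'⟩ else 0)) := by
      funext q
      unfold sub
      rw [dif_pos hl]
    rw [e]
    have hP : Primrec fun q : ((Fin m → ℕ) × ExpProg m L) × (Fin L × Fin L) =>
        q.1.2 ⟨l, hl⟩ b :=
      Primrec.fin_app.comp (Primrec.fin_app.comp (Primrec.snd.comp Primrec.fst)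
        (Primrec.const (⟨l, hl⟩ : Fin L))) (Primrec.const b)
    have hr : Primrec fun q : ((Fin m → ℕ) × ExpProg m L) × (Fin L × Fin L) =>
        rest q.1.2 ⟨l, hl⟩ b := (primrec_rest _ b).comp (Primrec.snd.comp Primrec.fst)
    have hka : ∀ a : Fin m, Primrec fun q : ((Fin m → ℕ) × ExpProg m L) × (Fin L × Fin L) =>
        (q.1.2 ⟨l, hl⟩ b).1.2.2 a := fun a =>
      Primrec.fin_app.comp (Primrec.snd.comp (Primrec.snd.comp (Primrec.fst.comp hP)))
        (Primrec.const a)
    have hk0 : Primrec fun q : ((Fin m → ℕ) × ExpProg m L) × (Fin L × Fin L) =>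
        (q.1.2 ⟨l, hl⟩ b).1.2.1 := Primrec.fst.comp (Primrec.snd.comp (Primrec.fst.comp hP))
    have hn : ∀ a : Fin m, Primrec fun q : ((Fin m → ℕ) × ExpProg m L) × (Fin L × Fin L) =>
        q.1.1 a := fun a =>
      Primrec.fin_app.comp (Primrec.fst.comp Primrec.fst) (Primrec.const a)
    refine Primrec.pair (Primrec.pair (Primrec.pair
      (Primrec.fst.comp (Primrec.fst.comp (Primrec.fst.comp hP)))
      (Primrec.nat_mul.comp (Primrec.snd.comp (Primrec.fst.comp (Primrec.fst.comp hP)))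
        (primrec_prod fun a => primrec_pow.comp (hn a) (Primrec.nat_add.comp
          (Primrec.fst.comp (hka a)) (Primrec.nat_sub.comp hr (Primrec.snd.comp (hka a)))))))
      (primrec_pi fun _ => Primrec.nat_add.comp (Primrec.fst.comp hk0)
        (Primrec.nat_sub.comp hr (Primrec.snd.comp hk0))))
      (Primrec.pair (Primrec.fst.comp (Primrec.snd.comp hP)) (primrec_pi fun l' => ?_))
    by_cases hl' : (l' : ℕ) < L
    · simp only [dif_pos hl']
      exact Primrec.fin_app.comp (Primrec.snd.comp (Primrec.snd.comp hP))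
        (Primrec.const (⟨l', hl'⟩ : Fin L))
    · simp only [dif_neg hl']
      exact Primrec.const 0
  · obtain ⟨k1, k2, hk1, hk2, hk⟩ : ∃ k1 k2 : ((Fin m → ℕ) × ExpProg m L) × (Fin L × Fin L) → Fin L,
        Primrec k1 ∧ Primrec k2 ∧ ∀ q, (if (l : ℕ) = L then (q.2.2 : ℕ) else (q.2.1 : ℕ)) = k1 q ∧
          (if (l : ℕ) = L then (q.2.1 : ℕ) else (q.2.2 : ℕ)) = k2 q := by
      by_cases hlL : (l : ℕ) = L
      · exact ⟨fun q => q.2.2, fun q => q.2.1, Primrec.snd.comp Primrec.snd,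
          Primrec.fst.comp Primrec.snd, fun q => ⟨if_pos hlL, if_pos hlL⟩⟩
      · exact ⟨fun q => q.2.1, fun q => q.2.2, Primrec.fst.comp Primrec.snd,
          Primrec.snd.comp Primrec.snd, fun q => ⟨if_neg hlL, if_neg hlL⟩⟩
    have e : (fun q : ((Fin m → ℕ) × ExpProg m L) × (Fin L × Fin L) =>
        sub q.1.1 q.1.2 q.2.1 q.2.2 l b) = fun q =>
        (((0, (1 - (b : ℕ)) * ∏ a, q.1.1 a ^ den q.1.2 (k1 q)), fun _ : Fin 1 => den q.1.2 (k1 q)),
          (fun _ : Fin m => 0, fun l' : Fin (L + 2) => if (l' : ℕ) = (k2 q : ℕ) then 1 else 0)) := by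
      funext q
      unfold sub
      rw [dif_neg hl, (hk q).1, (hk q).2]
    rw [e]
    have hd0 : Primrec₂ fun (l : Fin L) (P : ExpProg m L) => den P l :=
      Primrec.fin_curry₁.2 fun l => primrec_den l
    have hd : Primrec fun q : ((Fin m → ℕ) × ExpProg m L) × (Fin L × Fin L) =>
        den q.1.2 (k1 q) := hd0.comp hk1 (Primrec.snd.comp Primrec.fst)
    have hn : ∀ a : Fin m, Primrec fun q : ((Fin m → ℕ) × ExpProg m L) × (Fin L × Fin L) =>
        q.1.1 a := fun a =>
      Primrec.fin_app.comp (Primrec.fst.comp Primrec.fst) (Primrec.const a)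
    refine Primrec.pair (Primrec.pair (Primrec.pair (Primrec.const 0)
      (Primrec.nat_mul.comp (Primrec.const _) (primrec_prod fun a => primrec_pow.comp (hn a) hd)))
      (primrec_pi fun _ => hd))
      (Primrec.pair (Primrec.const _) (primrec_pi fun l' => ?_))
    exact Primrec.ite (Primrec.eq.comp (Primrec.const _) (Primrec.fin_val.comp hk2))
      (Primrec.const 1) (Primrec.const 0)

theorem indep_e : AlgebraicIndependent ℚ (fun _ : Fin 1 => Complex.exp 1) := by
  rw [algebraicIndependent_unique_type_iff]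
  exact Pool.Agent.H340R2.LW.transcendental_exp_one_complex

/-- **Main result.** -/
theorem result (m L : ℕ) :
    ∃ (Dec : ((Fin m → ℕ) × ExpProg m L) × (Fin L × Fin L) → Bool) (c : ℕ), Primrec Dec ∧
      ∀ x : ℕ, 16 ≤ x → ∃ E : Finset (Fin m → ℕ),
        (E.card : ℝ) ≤ c * Real.log (Real.log x) ^ c / Real.log x * x ^ m ∧
        ∀ n : Fin m → ℕ, (∀ i, 0 < n i ∧ n i ≤ x) → n ∉ E →
        ∀ (P : ExpProg m L) (i j : Fin L), Dec ((n, P), (i, j)) = true ↔ IsTrue n P i j := by
  obtain ⟨Dec, c, hDec, h⟩ := MP_bbe012_lc.PolynomialsWithFewAdditions.result 1 m (L + 2)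
  refine ⟨fun q => Dec (sub q.1.1 q.1.2 q.2.1 q.2.2, (⟨L, by omega⟩, ⟨L + 1, by omega⟩)), c,
    hDec.comp (Primrec.pair primrec_sub (Primrec.const _)), fun x hx => ?_⟩
  obtain ⟨E, hE, h1⟩ := h x hx _ indep_e
  refine ⟨E, hE, fun n hn hnE P i j => ?_⟩
  have key : ∀ y : Fin m → ℝ, (∀ a, Real.exp (y a) = n a) →
      (Dec (sub n P i j, (⟨L, by omega⟩, ⟨L + 1, by omega⟩)) = true ↔
        value P y i = value P y j) := by
    intro y hy
    have h2 := h1 n hn hnE (fun a => (y a : ℂ)) (fun a => by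
      rw [← Complex.ofReal_exp, hy a, Complex.ofReal_natCast]) (sub n P i j) ⟨L, by omega⟩
      ⟨L + 1, by omega⟩
    have h3 : ∀ l : ℕ, gate (sub n P i j) (fun _ : Fin 1 => Complex.exp 1) (fun a => (y a : ℂ)) l =
        ((gate (sub n P i j) (fun _ => Real.exp 1) y l : ℝ) : ℂ) := by
      intro l
      have h4 := map_gate Complex.ofRealHom (sub n P i j) (fun _ => Real.exp 1) y l
      simp only [Complex.ofRealHom_eq_coe, Complex.ofReal_exp, Complex.ofReal_one] at h4
      exact h4.symm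
    have hW : (Real.exp 1 * ∏ a, (n a : ℝ)) ≠ 0 := by
      refine mul_ne_zero (Real.exp_ne_zero 1) (Finset.prod_ne_zero_iff.2 fun a _ => ?_)
      exact_mod_cast (hn a).1.ne'
    rw [h2, MP_bbe012_lc.PolynomialsWithFewAdditions.value_eq,
      MP_bbe012_lc.PolynomialsWithFewAdditions.value_eq, h3, h3, Complex.ofReal_inj,
      gate_top n P i j y L le_rfl (by omega), gate_top n P i j y (L + 1) (by omega) (by omega),
      if_pos rfl, if_pos rfl, if_neg (by omega), if_neg (by omega), gate_lt n P i j y hy _ i.2,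
      gate_lt n P i j y hy _ j.2, ← mul_assoc, ← mul_assoc, ← pow_add, ← pow_add,
      add_comm (den P i), mul_right_inj' (pow_ne_zero _ hW)]
  constructor
  · intro h2
    have h3 : ∀ a, Real.exp (Real.log (n a)) = n a := fun a =>
      Real.exp_log (by exact_mod_cast (hn a).1)
    exact ⟨fun a => Real.log (n a), h3, (key _ h3).1 h2⟩
  · rintro ⟨y, hy, h2⟩
    exact (key y hy).2 h2

end

end Pool.Agent.Results.MP_da121c_lc.ExponentialTermsAtLogarithms
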